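import Mathlib

/-!
# Unitary divisors which divide the exponents of the cofactor
-/

namespace Pool.Agent.Hhelper34.Cop

/-- `B` is a unitary divisor of `n` with `N < B < n`, and `B` divides the `t`-th power of each exponent of `n / B` -/
def PD (t N n B : ℕ) : Prop :=
  N < B ∧ B < n ∧ B ∣ n ∧ B.Coprime (n / B) ∧ ∀ q, B ∣ ((n / B).factorization q) ^ t

theorem ufact {n B q : ℕ} (hn : n ≠ 0) (h : B ∣ n) (hc : B.Coprime (n / B)) (hq : q.Prime) (hqB : q ∣ B) :
    B.factorization q = n.factorization q := by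
  obtain ⟨m, rfl⟩ := h
  have hB : B ≠ 0 := fun h0 => hn (by simp [h0])
  have hm : m ≠ 0 := fun h0 => hn (by simp [h0])
  rw [Nat.mul_div_cancel_left m (Nat.pos_of_ne_zero hB)] at hc
  rw [Nat.factorization_mul hB hm, Finsupp.add_apply]
  have : m.factorization q = 0 := by
    apply Nat.factorization_eq_zero_of_not_dvd
    intro hqm
    exact hq.one_lt.ne' (Nat.dvd_one.mp (hc ▸ Nat.dvd_gcd hqB hqm))
  omega

theorem ufact_co {n B q : ℕ} (hn : n ≠ 0) (h : B ∣ n) (hqB : ¬ q ∣ B) :
    (n / B).factorization q = n.factorization q := by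
  obtain ⟨m, rfl⟩ := h
  have hB : B ≠ 0 := fun h0 => hn (by simp [h0])
  have hm : m ≠ 0 := fun h0 => hn (by simp [h0])
  rw [Nat.mul_div_cancel_left m (Nat.pos_of_ne_zero hB), Nat.factorization_mul hB hm, Finsupp.add_apply,
    Nat.factorization_eq_zero_of_not_dvd hqB, zero_add]

theorem fact_le_log {B q : ℕ} (hB : B ≠ 0) (hq : q.Prime) : B.factorization q ≤ Nat.log 2 B := by
  apply (Nat.le_log_iff_pow_le (by norm_num) hB).mpr
  calc 2 ^ (B.factorization q) ≤ q ^ (B.factorization q) := Nat.pow_le_pow_left hq.two_le _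
    _ ≤ B := Nat.le_of_dvd (Nat.pos_of_ne_zero hB) (Nat.ordProj_dvd B q)

theorem chain {t N n B B' : ℕ} (hN : ∀ x, N < x → (Nat.log 2 x) ^ t < x) (h : PD t N n B) (h' : PD t N n B')
    (hle : B ≤ B') : B ∣ B' := by
  by_contra hnd
  obtain ⟨h1, h2, h3, h4, h5⟩ := h
  obtain ⟨g1, g2, g3, g4, g5⟩ := h'
  have hn : n ≠ 0 := by omega
  have hB : B ≠ 0 := by omega
  have hB' : B' ≠ 0 := by omega
  have hex : ∃ q, q.Prime ∧ q ∣ B ∧ ¬ q ∣ B' := by
    by_contra hcon
    push Not at hcon
    apply hnd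
    rw [← Nat.factorization_le_iff_dvd hB hB']
    intro q
    by_cases hq : q.Prime
    · by_cases hqB : q ∣ B
      · rw [ufact hn h3 h4 hq hqB, ufact hn g3 g4 hq (hcon q hq hqB)]
      · rw [Nat.factorization_eq_zero_of_not_dvd hqB]
        exact Nat.zero_le _
    · rw [Nat.factorization_eq_zero_of_not_prime _ hq]
      exact Nat.zero_le _
  obtain ⟨q, hq, hqB, hqB'⟩ := hex
  have e1 : (n / B').factorization q = B.factorization q := by
    rw [ufact_co hn g3 hqB', ufact hn h3 h4 hq hqB]
  have e2 := g5 q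
  rw [e1] at e2
  have e3 : 0 < B.factorization q := hq.factorization_pos_of_dvd hB hqB
  have e4 := Nat.le_of_dvd (by positivity) e2
  have e5 : (B.factorization q) ^ t ≤ (Nat.log 2 B') ^ t :=
    Nat.pow_le_pow_left ((fact_le_log hB hq).trans (Nat.log_mono_right hle)) t
  have e6 := hN B' g1
  omega

theorem chain_one {n B B' : ℕ} (h : PD 1 1 n B) (h' : PD 1 1 n B') (hle : B ≤ B') : B ∣ B' := by
  refine chain (fun x hx => ?_) h h' hle
  rw [pow_one]
  exact Nat.log_lt_self 2 (by omega)

/-- the unitary divisors of a power -/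
theorem unitary_pow {a b x : ℕ} (ha : a ≠ 0) (hb : b ≠ 0) (hx : x ∣ a ^ b) (hc : x.Coprime (a ^ b / x)) :
    ∃ c, x = c ^ b ∧ c ∣ a ∧ c.Coprime (a / c) ∧ a ^ b / x = (a / c) ^ b := by
  obtain ⟨y, hy⟩ := hx
  have hab : a ^ b ≠ 0 := pow_ne_zero _ ha
  have hx0 : x ≠ 0 := fun h0 => hab (by rw [hy, h0, zero_mul])
  have hdiv : a ^ b / x = y := by
    rw [hy, Nat.mul_div_cancel_left y (Nat.pos_of_ne_zero hx0)]
  rw [hdiv] at hc ⊢
  obtain ⟨c, hc1⟩ : ∃ c, x = c ^ b :=
    exists_eq_pow_of_mul_eq_pow (α := ℕ) (by rw [Nat.isUnit_iff]; exact hc) hy.symm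
  obtain ⟨r, hr1⟩ : ∃ r, y = r ^ b :=
    exists_eq_pow_of_mul_eq_pow (α := ℕ) (by rw [Nat.isUnit_iff]; exact hc.symm)
      ((mul_comm y x).trans hy.symm)
  have h3 : a = c * r := by
    have : a ^ b = (c * r) ^ b := by rw [mul_pow, ← hc1, ← hr1, hy]
    exact Nat.pow_left_injective hb this
  have hc0 : c ≠ 0 := fun h0 => ha (by rw [h3, h0, zero_mul])
  have h4 : a / c = r := by rw [h3, Nat.mul_div_cancel_left r (Nat.pos_of_ne_zero hc0)]
  refine ⟨c, hc1, ⟨r, h3⟩, ?_, by rw [h4, hr1]⟩
  rw [h4]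
  rw [hc1, hr1] at hc
  exact Nat.Coprime.coprime_dvd_left (dvd_pow_self _ hb) (Nat.Coprime.coprime_dvd_right (dvd_pow_self _ hb) hc)

/-- a number all whose exponents are divisible by `m` is an `m`-th power -/
theorem is_pow {N m : ℕ} (hN : N ≠ 0) (h : ∀ q, m ∣ N.factorization q) : ∃ s, N = s ^ m := by
  refine ⟨N.factorization.prod fun q v => q ^ (v / m), ?_⟩
  conv_lhs => rw [← Nat.prod_factorization_pow_eq_self hN]
  unfold Finsupp.prod
  rw [← Finset.prod_pow]
  apply Finset.prod_congr rfl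
  intro q _
  rw [← pow_mul, Nat.div_mul_cancel (h q)]

/-- the set of the divisors `B` with `PD 1 1 n B` -/
noncomputable def DD (n : ℕ) : Finset ℕ := by
  classical exact (Finset.range n).filter (fun B => PD 1 1 n B)

theorem mem_DD {n B : ℕ} : B ∈ DD n ↔ PD 1 1 n B := by
  classical
  unfold DD
  rw [Finset.mem_filter, Finset.mem_range]
  exact ⟨fun h => h.2, fun h => ⟨h.2.1, h⟩⟩

theorem two_pow_gt {b : ℕ} : b < 2 ^ b := Nat.lt_two_pow_self

/-- an exponent of `b` is smaller than `b` -/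
theorem fact_lt {b q : ℕ} (hb : b ≠ 0) : b.factorization q < b := by
  by_cases hq : q.Prime
  · have h1 := fact_le_log (q := q) hb hq
    have h2 := Nat.log_lt_self 2 hb
    omega
  · rw [Nat.factorization_eq_zero_of_not_prime _ hq]
    exact Nat.pos_of_ne_zero hb

/-- a unitary divisor greater than one of `a ^ b` is greater than `b` -/
theorem unitary_pow_gt {a b x : ℕ} (ha : a ≠ 0) (hb : b ≠ 0) (hx1 : 1 < x) (hx : x ∣ a ^ b)
    (hc : x.Coprime (a ^ b / x)) : b < x := by
  obtain ⟨c, rfl, -⟩ := unitary_pow ha hb hx hc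
  have h2 : 2 ≤ c := by
    rcases Nat.lt_or_ge c 2 with h | h
    · exfalso
      interval_cases c
      · rw [zero_pow hb] at hx1
        omega
      · rw [one_pow] at hx1
        omega
    · exact h
  calc b < 2 ^ b := two_pow_gt
    _ ≤ c ^ b := Nat.pow_le_pow_left h2 b

theorem decomp {a b : ℕ} (ha : 1 < a) (hb : 1 < b) (hab : a.Coprime b) (B : ℕ) :
    PD 1 1 (a ^ b * b) B ↔ PD 1 1 b B ∨ B = b ∨ ∃ x, PD 1 1 (a ^ b) x ∧ B = b * x := by
  have hb0 : b ≠ 0 := by omega
  have ha0 : a ≠ 0 := by omega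
  have hA0 : a ^ b ≠ 0 := pow_ne_zero _ ha0
  have hA1 : 1 < a ^ b := Nat.one_lt_pow hb0 ha
  have hcop : (a ^ b).Coprime b := Nat.Coprime.pow_left b hab
  constructor
  · rintro ⟨h1, h2, h3, h4, h5⟩
    have hB0 : B ≠ 0 := by omega
    have hBeq : B = Nat.gcd B (a ^ b) * Nat.gcd B b := by
      rw [← Nat.Coprime.gcd_mul B hcop]
      exact (Nat.gcd_eq_left h3).symm
    obtain ⟨d, hd⟩ : ∃ d, d = Nat.gcd B b := ⟨_, rfl⟩
    obtain ⟨x, hx⟩ : ∃ x, x = Nat.gcd B (a ^ b) := ⟨_, rfl⟩
    rw [← hd, ← hx] at hBeq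
    have hdb : d ∣ b := hd ▸ Nat.gcd_dvd_right _ _
    have hxa : x ∣ a ^ b := hx ▸ Nat.gcd_dvd_right _ _
    have hd0 : 0 < d := Nat.pos_of_dvd_of_pos hdb (by omega)
    have hx0 : 0 < x := Nat.pos_of_dvd_of_pos hxa (by omega)
    obtain ⟨y, hy⟩ := hxa
    obtain ⟨z, hz⟩ := hdb
    have hy0 : y ≠ 0 := fun h0 => hA0 (by rw [hy, h0, mul_zero])
    have hz0 : z ≠ 0 := fun h0 => hb0 (by rw [hz, h0, mul_zero])
    have hquot : a ^ b * b / B = y * z := by
      have e : a ^ b * b = B * (y * z) := by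
        calc a ^ b * b = (x * y) * (d * z) := by rw [← hy, ← hz]
          _ = B * (y * z) := by rw [hBeq]; ring
      rw [e, Nat.mul_div_cancel_left _ (Nat.pos_of_ne_zero hB0)]
    rw [hquot] at h4 h5
    have hyz : y.Coprime z := by
      apply Nat.Coprime.coprime_dvd_left (Dvd.intro_left x hy.symm)
      exact Nat.Coprime.coprime_dvd_right (Dvd.intro_left d hz.symm) hcop
    have hfact : ∀ q, (y * z).factorization q = y.factorization q + z.factorization q := fun q => by
      rw [Nat.factorization_mul hy0 hz0, Finsupp.add_apply]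
    have hxy : a ^ b / x = y := by rw [hy, Nat.mul_div_cancel_left _ hx0]
    have hdz : b / d = z := by
      conv_lhs => rw [hz]
      exact Nat.mul_div_cancel_left _ hd0
    have hBy : B.Coprime y := Nat.Coprime.coprime_dvd_right (Dvd.intro _ rfl) h4
    have hBz : B.Coprime z := Nat.Coprime.coprime_dvd_right (Dvd.intro_left _ rfl) h4
    have hxB : x ∣ B := ⟨d, hBeq⟩
    have hdB : d ∣ B := ⟨x, by rw [hBeq, mul_comm]⟩
    rcases Nat.lt_or_ge 1 x with hx1 | hx1
    · -- `d = b`
      right; right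
      have hzone : z = 1 := by
        by_contra hz1
        obtain ⟨q, hq, hqz⟩ := Nat.exists_prime_and_dvd hz1
        have hqy : ¬ q ∣ y := fun h => hq.one_lt.ne' (Nat.dvd_one.mp (hyz ▸ Nat.dvd_gcd h hqz))
        have e1 := h5 q
        rw [pow_one, hfact q, Nat.factorization_eq_zero_of_not_dvd hqy, zero_add] at e1
        have e2 : 0 < z.factorization q := hq.factorization_pos_of_dvd hz0 hqz
        have e3 := Nat.le_of_dvd e2 e1
        have e4 : z.factorization q ≤ b.factorization q := by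
          have : z ∣ b := Dvd.intro_left d hz.symm
          exact (Nat.factorization_le_iff_dvd hz0 hb0).mpr this q
        have e5 := fact_lt (q := q) hb0
        have e6 : b < x := unitary_pow_gt ha0 hb0 hx1 ⟨y, hy⟩
          (by rw [hxy]; exact Nat.Coprime.coprime_dvd_left hxB hBy)
        have e7 : x ≤ B := Nat.le_of_dvd (by omega) hxB
        omega
      rw [hzone, mul_one] at hz
      refine ⟨x, ⟨hx1, ?_, ⟨y, hy⟩, ?_, ?_⟩, by rw [hBeq, ← hz, mul_comm]⟩
      · rcases Nat.lt_or_ge x (a ^ b) with h | h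
        · exact h
        · exfalso
          have : a ^ b * b ≤ B := by rw [hBeq, ← hz]; exact Nat.mul_le_mul_right b h
          omega
      · rw [hxy]
        exact Nat.Coprime.coprime_dvd_left hxB hBy
      · intro q
        rw [hxy]
        have e1 := h5 q
        rw [hzone, mul_one] at e1
        exact hxB.trans e1
    · -- `x = 1`
      have hx1' : x = 1 := by omega
      rw [hx1', one_mul] at hBeq
      rcases eq_or_ne B b with hBb | hBb
      · exact Or.inr (Or.inl hBb)
      · left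
        have hBdvd : B ∣ b := hBeq ▸ ⟨z, hz⟩
        refine ⟨h1, lt_of_le_of_ne (Nat.le_of_dvd (by omega) hBdvd) hBb, hBdvd, ?_, ?_⟩
        · rw [hBeq, hdz, ← hBeq]
          exact hBz
        · intro q
          rw [hBeq, hdz, ← hBeq, pow_one]
          have e1 := h5 q
          rw [pow_one, hfact q] at e1
          have e2 : y = a ^ b := by rw [hy, hx1', one_mul]
          rw [e2, Nat.factorization_pow] at e1
          have e3 : B ∣ (b • a.factorization) q := by
            rw [Finsupp.smul_apply, smul_eq_mul]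
            exact Dvd.dvd.mul_right hBdvd _
          exact (Nat.dvd_add_right e3).mp e1
  · rintro (⟨h1, h2, h3, h4, h5⟩ | rfl | ⟨x, ⟨h1, h2, h3, h4, h5⟩, rfl⟩)
    · have hB0 : 0 < B := by omega
      have hquot : a ^ b * b / B = a ^ b * (b / B) := Nat.mul_div_assoc _ h3
      have hbB0 : b / B ≠ 0 := (Nat.div_pos (Nat.le_of_dvd (by omega) h3) hB0).ne'
      refine ⟨h1, ?_, Dvd.dvd.mul_left h3 _, ?_, ?_⟩
      · nlinarith
      · rw [hquot]
        exact Nat.Coprime.mul_right (Nat.Coprime.coprime_dvd_left h3 hcop.symm) h4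
      · intro q
        rw [hquot, Nat.factorization_mul hA0 hbB0, Finsupp.add_apply, pow_one, Nat.factorization_pow,
          Finsupp.smul_apply, smul_eq_mul]
        apply Nat.dvd_add (Dvd.dvd.mul_right h3 _)
        have := h5 q
        rwa [pow_one] at this
    · have hquot : a ^ B * B / B = a ^ B := Nat.mul_div_cancel _ (by omega)
      refine ⟨hb, ?_, Dvd.intro_left _ rfl, ?_, ?_⟩
      · nlinarith
      · rw [hquot]
        exact hcop.symm
      · intro q
        rw [hquot, pow_one, Nat.factorization_pow, Finsupp.smul_apply, smul_eq_mul]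
        exact Dvd.intro _ rfl
    · have hx0 : 0 < x := by omega
      obtain ⟨y, hy⟩ := h3
      have hxy : a ^ b / x = y := by rw [hy, Nat.mul_div_cancel_left _ hx0]
      rw [hxy] at h4 h5
      have hquot : a ^ b * b / (b * x) = y := by
        have : a ^ b * b = b * x * y := by rw [hy]; ring
        rw [this, Nat.mul_div_cancel_left _ (by positivity)]
      have hya : y ∣ a ^ b := Dvd.intro_left x hy.symm
      have hxa : x ∣ a ^ b := ⟨y, hy⟩
      have hbx : b.Coprime x := (Nat.Coprime.coprime_dvd_left hxa hcop).symm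
      refine ⟨?_, ?_, ?_, ?_, ?_⟩
      · nlinarith
      · rw [mul_comm b x]
        exact Nat.mul_lt_mul_of_pos_right h2 (by omega)
      · rw [mul_comm b x]
        exact Nat.mul_dvd_mul_right hxa b
      · rw [hquot]
        exact Nat.Coprime.mul_left (Nat.Coprime.coprime_dvd_left hya hcop).symm h4
      · intro q
        rw [hquot, pow_one]
        have e1 := h5 q
        rw [pow_one] at e1
        apply Nat.Coprime.mul_dvd_of_dvd_of_dvd hbx _ e1
        by_cases hqx : q ∣ x
        · by_cases hq : q.Prime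
          · have : ¬ q ∣ y := fun h => hq.one_lt.ne' (Nat.dvd_one.mp (h4 ▸ Nat.dvd_gcd hqx h))
            rw [Nat.factorization_eq_zero_of_not_dvd this]
            exact dvd_zero _
          · rw [Nat.factorization_eq_zero_of_not_prime _ hq]
            exact dvd_zero _
        · have := ufact_co hA0 hxa hqx
          rw [hxy] at this
          rw [this, Nat.factorization_pow, Finsupp.smul_apply, smul_eq_mul]
          exact Dvd.intro _ rfl

theorem card_decomp {a b : ℕ} (ha : 1 < a) (hb : 1 < b) (hab : a.Coprime b) :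
    (DD (a ^ b * b)).card = (DD b).card + 1 + (DD (a ^ b)).card := by
  classical
  have h1 : DD (a ^ b * b) = (insert b (DD b)) ∪ (DD (a ^ b)).image (fun x => b * x) := by
    ext B
    rw [mem_DD, decomp ha hb hab, Finset.mem_union, Finset.mem_insert, Finset.mem_image, mem_DD]
    constructor
    · rintro (h | h | ⟨x, h, rfl⟩)
      · exact Or.inl (Or.inr h)
      · exact Or.inl (Or.inl h)
      · exact Or.inr ⟨x, mem_DD.mpr h, rfl⟩
    · rintro ((h | h) | ⟨x, h, rfl⟩)
      · exact Or.inr (Or.inl h)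
      · exact Or.inl h
      · exact Or.inr (Or.inr ⟨x, mem_DD.mp h, rfl⟩)
  rw [h1, Finset.card_union_of_disjoint, Finset.card_insert_of_notMem, Finset.card_image_of_injective]
  · intro x y hxy
    exact Nat.eq_of_mul_eq_mul_left (by omega) hxy
  · rw [mem_DD]
    rintro ⟨-, h, -⟩
    omega
  · rw [Finset.disjoint_left]
    intro B hB hB'
    rw [Finset.mem_image] at hB'
    obtain ⟨x, hx, rfl⟩ := hB'
    have hx1 : 1 < x := (mem_DD.mp hx).1
    rw [Finset.mem_insert, mem_DD] at hB
    rcases hB with h | h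
    · nlinarith
    · have := h.2.1
      nlinarith

end Pool.Agent.Hhelper34.Cop
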