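import Mathlib
import Pool.Agent.Hhelper34.Cop.Basic
import Pool.Agent.PRF.CommonData

/-!
# Coprime pairs: the exponents of `(a ^ b * b) / B` are not too divisible
-/

namespace Pool.Agent.Hhelper34.Cop

open Pool.Agent.Results.MP_1b773e_co

theorem exists_N (t : ℕ) : ∃ N : ℕ, 1 ≤ N ∧ ∀ x, N < x → (Nat.log 2 x) ^ t < x := by
  have h := isLittleO_pow_const_const_pow_of_one_lt (R := ℝ) t (by norm_num : (1:ℝ) < 2)
  have h1 := h.bound (by norm_num : (0:ℝ) < 1 / 2)
  rw [Filter.eventually_atTop] at h1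
  obtain ⟨L0, hL0⟩ := h1
  refine ⟨L0 ^ t + 1, by omega, fun x hx => ?_⟩
  rcases Nat.lt_or_ge (Nat.log 2 x) L0 with h2 | h2
  · have := Nat.pow_le_pow_left h2.le t
    omega
  · have h3 := hL0 _ h2
    rw [Real.norm_of_nonneg (by positivity), Real.norm_of_nonneg (by positivity)] at h3
    have h4 : ((Nat.log 2 x : ℕ) : ℝ) ^ t < 2 ^ (Nat.log 2 x) := by
      have : (0:ℝ) < 2 ^ (Nat.log 2 x) := by positivity
      linarith
    have h5 : (Nat.log 2 x) ^ t < 2 ^ (Nat.log 2 x) := by exact_mod_cast h4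
    exact h5.trans_le (Nat.pow_log_le_self 2 (by omega))

/-- the least `B` with `PD t N n B` -/
noncomputable def ee (t N n : ℕ) : ℕ := sInf {B | PD t N n B}

theorem ee_mem {t N n B : ℕ} (h : PD t N n B) : PD t N n (ee t N n) := Nat.sInf_mem (s := {B | PD t N n B}) ⟨B, h⟩

theorem ee_le {t N n B : ℕ} (h : PD t N n B) : ee t N n ≤ B := Nat.sInf_le h

theorem fact_zero_of {a b q : ℕ} (hab : a.Coprime b) (h : a.factorization q ≠ 0) : b.factorization q = 0 := by
  have hq : q.Prime := by
    by_contra hq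
    exact h (Nat.factorization_eq_zero_of_not_prime _ hq)
  have hqa : q ∣ a := by
    by_contra hqa
    exact h (Nat.factorization_eq_zero_of_not_dvd hqa)
  apply Nat.factorization_eq_zero_of_not_dvd
  intro hqb
  exact hq.one_lt.ne' (Nat.dvd_one.mp (hab ▸ Nat.dvd_gcd hqa hqb))

theorem transfer {t N a b m B : ℕ} (ha : 1 < a) (hb : 1 < b) (hab : a.Coprime b) (hm : m ≠ 0) (ht : t ≠ 0)
    (hNB : N < B) (hBb : B ∣ b) (hcB : B.Coprime (b / B)) (hv : ∀ q, B ∣ (a.factorization q) ^ t) :
    PD t N (a ^ m * b) B ↔ ∀ q, B ∣ ((b / B).factorization q) ^ t := by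
  have hB0 : 0 < B := by omega
  have hA0 : a ^ m ≠ 0 := pow_ne_zero _ (by omega)
  have hA1 : 1 < a ^ m := Nat.one_lt_pow hm ha
  have hquot : a ^ m * b / B = a ^ m * (b / B) := Nat.mul_div_assoc _ hBb
  have hbB0 : b / B ≠ 0 := (Nat.div_pos (Nat.le_of_dvd (by omega) hBb) hB0).ne'
  have hfact : ∀ q, (a ^ m * (b / B)).factorization q = m * a.factorization q + (b / B).factorization q := fun q => by
    rw [Nat.factorization_mul hA0 hbB0, Finsupp.add_apply, Nat.factorization_pow, Finsupp.smul_apply, smul_eq_mul]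
  have hbBb : b / B ∣ b := Nat.div_dvd_of_dvd hBb
  have hcop : a.Coprime (b / B) := Nat.Coprime.coprime_dvd_right hbBb hab
  constructor
  · rintro ⟨-, -, -, -, h5⟩ q
    have e1 := h5 q
    rw [hquot, hfact q] at e1
    by_cases hq : (b / B).factorization q = 0
    · rw [hq, zero_pow ht]
      exact dvd_zero _
    · rw [fact_zero_of hcop.symm hq, mul_zero, zero_add] at e1
      exact e1
  · intro h5
    refine ⟨hNB, ?_, Dvd.dvd.mul_left hBb _, ?_, ?_⟩
    · have := Nat.le_of_dvd (by omega) hBb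
      nlinarith
    · rw [hquot]
      exact Nat.Coprime.mul_right (Nat.Coprime.pow_right _ (Nat.Coprime.coprime_dvd_left hBb hab.symm)) hcB
    · intro q
      rw [hquot, hfact q]
      by_cases hq : a.factorization q = 0
      · rw [hq, mul_zero, zero_add]
        exact h5 q
      · rw [fact_zero_of hcop hq, add_zero, mul_pow]
        exact Dvd.dvd.mul_left (hv q) _

theorem key {t N a b d : ℕ} (ha : 1 < a) (hb : 1 < b) (hab : a.Coprime b) (ht : t ≠ 0)
    (hN : ∀ x, N < x → (Nat.log 2 x) ^ t < x) (hNd : N < d) (hd : PD 1 1 b d ∨ d = b)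
    (hv : ∀ q, d ∣ (a.factorization q) ^ t) :
    ee t N (a * b) = ee t N (a ^ b * b) ∧ N < ee t N (a ^ b * b) ∧ ee t N (a ^ b * b) ∣ b ∧
      (ee t N (a ^ b * b)).Coprime (b / ee t N (a ^ b * b)) := by
  have hdb : d ∣ b := by
    rcases hd with h | h
    · exact h.2.2.1
    · exact h ▸ dvd_rfl
  have hdc : d.Coprime (b / d) := by
    rcases hd with h | h
    · exact h.2.2.2.1
    · rw [h, Nat.div_self (by omega)]
      exact Nat.coprime_one_right _
  have hdf : ∀ q, d ∣ ((b / d).factorization q) ^ t := by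
    intro q
    rcases hd with h | h
    · have := h.2.2.2.2 q
      rw [pow_one] at this
      exact Dvd.dvd.trans this (dvd_pow_self _ ht)
    · rw [h, Nat.div_self (by omega), Nat.factorization_one, Finsupp.zero_apply, zero_pow ht]
      exact dvd_zero _
  have hP : ∀ m, m ≠ 0 → PD t N (a ^ m * b) d := fun m hm =>
    (transfer ha hb hab hm ht hNd hdb hdc hv).mpr hdf
  have hU : ∀ m, m ≠ 0 → N < ee t N (a ^ m * b) ∧ ee t N (a ^ m * b) ∣ b ∧
      (ee t N (a ^ m * b)).Coprime (b / ee t N (a ^ m * b)) ∧ (∀ q, ee t N (a ^ m * b) ∣ (a.factorization q) ^ t) := by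
    intro m hm
    have h1 := ee_mem (hP m hm)
    have h2 := ee_le (hP m hm)
    have h3 : ee t N (a ^ m * b) ∣ d := chain hN h1 (hP m hm) h2
    have h4 := h3.trans hdb
    refine ⟨h1.1, h4, ?_, fun q => h3.trans (hv q)⟩
    have h5 := h1.2.2.2.1
    rw [Nat.mul_div_assoc _ h4] at h5
    exact Nat.Coprime.coprime_dvd_right (Dvd.intro_left _ rfl) h5
  have hle : ∀ m m', m ≠ 0 → m' ≠ 0 → ee t N (a ^ m * b) ≤ ee t N (a ^ m' * b) := by
    intro m m' hm hm'
    obtain ⟨u1, u2, u3, u4⟩ := hU m' hm'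
    apply ee_le
    rw [transfer ha hb hab hm ht u1 u2 u3 u4, ← transfer ha hb hab hm' ht u1 u2 u3 u4]
    exact ee_mem (hP m' hm')
  obtain ⟨u1, u2, u3, -⟩ := hU b (by omega)
  refine ⟨?_, u1, u2, u3⟩
  have h1 := hle 1 b one_ne_zero (by omega)
  have h2 := hle b 1 (by omega) one_ne_zero
  rw [pow_one] at h1 h2
  exact le_antisymm h1 h2

/-- the weight which is `1 / (2 v_q(x))` at the least prime factor `q` of `x` -/
noncomputable def wt (x q : ℕ) : ℝ := if q = x.minFac then 1 / (2 * (x.factorization x.minFac : ℝ)) else 0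

theorem wt_half {b x : ℕ} (hb : b ≠ 0) (hx : 1 < x) (hxb : x ∣ b) (hc : x.Coprime (b / x)) :
    CommonData.additive (wt x) b = 1 / 2 := by
  have hq : x.minFac.Prime := Nat.minFac_prime (by omega)
  have hv : x.factorization x.minFac = b.factorization x.minFac := ufact hb hxb hc hq (Nat.minFac_dvd x)
  have hpos : 0 < x.factorization x.minFac := hq.factorization_pos_of_dvd (by omega) (Nat.minFac_dvd x)
  unfold CommonData.additive Finsupp.sum
  rw [Finset.sum_eq_single x.minFac]
  · show (b.factorization x.minFac : ℝ) * wt x x.minFac = 1 / 2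
    unfold wt
    rw [if_pos rfl, hv]
    have : (0:ℝ) < (b.factorization x.minFac : ℝ) := by
      rw [← hv]
      exact_mod_cast hpos
    field_simp
  · intro q _ hq'
    show (b.factorization q : ℝ) * wt x q = 0
    unfold wt
    rw [if_neg hq', mul_zero]
  · intro h
    rw [Finsupp.notMem_support_iff] at h
    show (b.factorization x.minFac : ℝ) * wt x x.minFac = 0
    rw [h, Nat.cast_zero, zero_mul]

/-- the elements `B` of `DD n` for which the `t`-th powers of the exponents of `n / B` are not all divisible by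
`d ^ (t + 1)`, where `d` is the least element of `DD n` -/
noncomputable def FF (t n : ℕ) : Finset ℕ := by
  classical exact (DD n).filter (fun B => ¬ ∀ q, (ee 1 1 n) ^ (t + 1) ∣ ((n / B).factorization q) ^ t)

theorem mem_FF {t n B : ℕ} :
    B ∈ FF t n ↔ PD 1 1 n B ∧ ¬ ∀ q, (ee 1 1 n) ^ (t + 1) ∣ ((n / B).factorization q) ^ t := by
  classical
  unfold FF
  rw [Finset.mem_filter, mem_DD]

/-- `DD n` has at least `k` elements, and its `k` smallest elements belong to `FF t n` -/
def QQ (k t n : ℕ) : Prop :=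
  k ≤ (DD n).card ∧ ∀ B ∈ DD n, ((DD n).filter (· < B)).card < k → B ∈ FF t n

theorem hv_of_bad {t a b B d : ℕ} (ha : 1 < a) (hb : 1 < b) (hab : a.Coprime b) (ht : t ≠ 0) (hBb : B ∣ b)
    (hdb : d ∣ b) (hd0 : 0 < d) (hdc : d.Coprime (b / d))
    (hbad : ∀ q, d ^ (t + 1) ∣ ((a ^ b * b / B).factorization q) ^ t) (q : ℕ) : d ∣ (a.factorization q) ^ t := by
  by_cases hq : a.factorization q = 0
  · rw [hq, zero_pow ht]
    exact dvd_zero _
  have hB0 : 0 < B := Nat.pos_of_dvd_of_pos hBb (by omega)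
  have hA0 : a ^ b ≠ 0 := pow_ne_zero _ (by omega)
  have hbB0 : b / B ≠ 0 := (Nat.div_pos (Nat.le_of_dvd (by omega) hBb) hB0).ne'
  have hcop : a.Coprime (b / B) := Nat.Coprime.coprime_dvd_right (Nat.div_dvd_of_dvd hBb) hab
  have e1 := hbad q
  rw [Nat.mul_div_assoc _ hBb, Nat.factorization_mul hA0 hbB0, Finsupp.add_apply, fact_zero_of hcop hq, add_zero,
    Nat.factorization_pow, Finsupp.smul_apply, smul_eq_mul, mul_pow] at e1
  obtain ⟨b', hb'⟩ := hdb
  have hdiv : b / d = b' := by
    conv_lhs => rw [hb']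
    exact Nat.mul_div_cancel_left _ hd0
  rw [hdiv] at hdc
  have e2 : d ^ t * d ∣ d ^ t * (b' ^ t * (a.factorization q) ^ t) := by
    rw [← pow_succ]
    have : b ^ t = d ^ t * b' ^ t := by rw [hb', mul_pow]
    rw [this] at e1
    rw [← mul_assoc]
    exact e1
  have e3 := Nat.dvd_of_mul_dvd_mul_left (by positivity) e2
  exact Nat.Coprime.dvd_of_dvd_mul_left (Nat.Coprime.pow_right t hdc) e3

theorem core (k t : ℕ) (ht : t ≠ 0) : ∃ (r : ℕ) (c : ℕ → Fin r), ∀ a b : ℕ, 1 < a → 1 < b → a.Coprime b →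
    c a = c b → c a = c (a * b) → c a = c (a ^ b) → c a = c (a ^ b * b) →
    k ≤ (FF t (a ^ b)).card ∧ QQ k t (a ^ b) ∧ ∀ B, PD 1 1 b B ∨ B = b → B ∈ FF t (a ^ b * b) := by
  classical
  obtain ⟨N, hN1, hN⟩ := exists_N t
  obtain ⟨r₀, hr₀⟩ := CommonData.result (1 / 4) (by norm_num)
  obtain ⟨c₀, h₀⟩ := hr₀ ℕ (fun n => if ee 1 1 n ≤ N then ee 1 1 n else ee t N n) wt
  let X := (Fin r₀ × Fin (k + 1)) × (Fin (N + 2) × (Bool × Bool))
  let f : ℕ → X := fun n => ((c₀ n, ⟨(DD n).card % (k + 1), Nat.mod_lt _ (by omega)⟩),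
    (⟨min (ee 1 1 n) (N + 1), by omega⟩, (decide (k ≤ (FF t n).card), decide (QQ k t n))))
  refine ⟨Fintype.card X, fun n => Fintype.equivFin X (f n), ?_⟩
  intro a b ha hb hab e1 e2 e3 e4
  have g1 : f a = f b := (Fintype.equivFin X).injective e1
  have g2 : f a = f (a * b) := (Fintype.equivFin X).injective e2
  have g3 : f a = f (a ^ b) := (Fintype.equivFin X).injective e3
  have g4 : f a = f (a ^ b * b) := (Fintype.equivFin X).injective e4
  have p1 : ∀ {x y : ℕ}, f x = f y → c₀ x = c₀ y := fun h => congrArg (fun z => z.1.1) h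
  have p2 : ∀ {x y : ℕ}, f x = f y → (DD x).card % (k + 1) = (DD y).card % (k + 1) := fun h =>
    congrArg (fun z => z.1.2.val) h
  have p3 : ∀ {x y : ℕ}, f x = f y → min (ee 1 1 x) (N + 1) = min (ee 1 1 y) (N + 1) := fun h =>
    congrArg (fun z => z.2.1.val) h
  have p4 : ∀ {x y : ℕ}, f x = f y → decide (k ≤ (FF t x).card) = decide (k ≤ (FF t y).card) := fun h =>
    congrArg (fun z => z.2.2.1) h
  have p5 : ∀ {x y : ℕ}, f x = f y → decide (QQ k t x) = decide (QQ k t y) := fun h =>
    congrArg (fun z => z.2.2.2) h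
  -- the number of elements
  have hcard := card_decomp ha hb hab
  have m1 : (DD (a ^ b * b)).card % (k + 1) = (DD (a ^ b)).card % (k + 1) := p2 (g4.symm.trans g3)
  have m2 : k + 1 ∣ (DD b).card + 1 := by
    have : (DD b).card + 1 + (DD (a ^ b)).card ≡ 0 + (DD (a ^ b)).card [MOD (k + 1)] := by
      rw [← hcard, zero_add]
      exact m1
    exact (Nat.modEq_zero_iff_dvd).mp (Nat.ModEq.add_right_cancel' _ this)
  have m3 : k + 1 ≤ (DD b).card + 1 := Nat.le_of_dvd (by omega) m2
  -- the elements are not bad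
  have hsub : insert b (DD b) ⊆ FF t (a ^ b * b) := by
    intro B hB
    have hB' : PD 1 1 b B ∨ B = b := by
      rw [Finset.mem_insert, mem_DD] at hB
      exact hB.symm
    have hBn : PD 1 1 (a ^ b * b) B := by
      rw [decomp ha hb hab]
      rcases hB' with h | h
      · exact Or.inl h
      · exact Or.inr (Or.inl h)
    have hBb : B ∣ b := by
      rcases hB' with h | h
      · exact h.2.2.1
      · exact h ▸ dvd_rfl
    rw [mem_FF]
    refine ⟨hBn, fun hbad => ?_⟩
    obtain ⟨d, hd⟩ : ∃ d, d = ee 1 1 (a ^ b * b) := ⟨_, rfl⟩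
    rw [← hd] at hbad
    have hdn : PD 1 1 (a ^ b * b) d := hd ▸ ee_mem hBn
    have hdB : d ≤ B := hd ▸ ee_le hBn
    have hBle : B ≤ b := Nat.le_of_dvd (by omega) hBb
    have hdb : PD 1 1 b d ∨ d = b := by
      rcases (decomp ha hb hab d).mp hdn with h | h | ⟨x, hx, h⟩
      · exact Or.inl h
      · exact Or.inr h
      · exfalso
        have := hx.1
        nlinarith
    have hddvd : d ∣ b := by
      rcases hdb with h | h
      · exact h.2.2.1
      · exact h ▸ dvd_rfl
    have hdc : d.Coprime (b / d) := by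
      rcases hdb with h | h
      · exact h.2.2.2.1
      · rw [h, Nat.div_self (by omega)]
        exact Nat.coprime_one_right _
    have hd1 : 1 < d := hdn.1
    have hv := hv_of_bad ha hb hab ht hBb hddvd (by omega) hdc hbad
    have hmin := p3 (g2.symm.trans g4)
    -- the common value
    have hx : ∃ x, x = (if ee 1 1 (a * b) ≤ N then ee 1 1 (a * b) else ee t N (a * b)) ∧
        x = (if ee 1 1 (a ^ b * b) ≤ N then ee 1 1 (a ^ b * b) else ee t N (a ^ b * b)) ∧
        1 < x ∧ x ∣ b ∧ x.Coprime (b / x) := by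
      rcases Nat.lt_or_ge N d with hNd | hNd
      · obtain ⟨k1, k2, k3, k4⟩ := key ha hb hab ht hN hNd hdb hv
        have h1 : ¬ ee 1 1 (a ^ b * b) ≤ N := by rw [← hd]; omega
        have h2 : ¬ ee 1 1 (a * b) ≤ N := by omega
        refine ⟨ee t N (a ^ b * b), ?_, ?_, by omega, k3, k4⟩
        · rw [if_neg h2, k1]
        · rw [if_neg h1]
      · have h1 : ee 1 1 (a ^ b * b) ≤ N := by rw [← hd]; exact hNd
        have h2 : ee 1 1 (a * b) = ee 1 1 (a ^ b * b) := by omega
        refine ⟨d, ?_, ?_, hd1, hddvd, hdc⟩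
        · rw [h2, if_pos h1]
          exact hd
        · rw [if_pos h1]
          exact hd
    obtain ⟨x, x1, x2, x3, x4, x5⟩ := hx
    obtain ⟨m, hm⟩ := h₀ a b ha hb (p1 g1) (p1 g2) (p1 g3) (p1 g4) (by
      show (if ee 1 1 (a * b) ≤ N then ee 1 1 (a * b) else ee t N (a * b)) =
        (if ee 1 1 (a ^ b * b) ≤ N then ee 1 1 (a ^ b * b) else ee t N (a ^ b * b))
      rw [← x1, ← x2])
    have hm' : |CommonData.additive (wt x) b - m| < 1 / 4 := by
      have e : x = (fun n => if ee 1 1 n ≤ N then ee 1 1 n else ee t N n) (a * b) := x1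
      rw [e]
      exact hm
    rw [wt_half (by omega) x3 x4 x5] at hm'
    rw [abs_lt] at hm'
    have h1 : (m:ℝ) < 1 := by linarith
    have h2 : (0:ℝ) < m := by linarith
    have h3 : m < 1 := by exact_mod_cast h1
    have h4 : 0 < m := by exact_mod_cast h2
    omega
  have hins : k + 1 ≤ (insert b (DD b)).card := by
    rw [Finset.card_insert_of_notMem]
    · omega
    · rw [mem_DD]
      rintro ⟨-, h, -⟩
      omega
  have hge : k ≤ (FF t (a ^ b * b)).card := by
    have h1 := Finset.card_le_card hsub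
    omega
  have hQ : QQ k t (a ^ b * b) := by
    refine ⟨by omega, fun B hB hrank => ?_⟩
    rcases (decomp ha hb hab B).mp (mem_DD.mp hB) with h | h | ⟨x, hx, h⟩
    · exact hsub (Finset.mem_insert_of_mem (mem_DD.mpr h))
    · exact hsub (h ▸ Finset.mem_insert_self _ _)
    · exfalso
      have hbB : b < B := by
        have := hx.1
        nlinarith
      have h1 : insert b (DD b) ⊆ (DD (a ^ b * b)).filter (· < B) := by
        intro B' hB'
        rw [Finset.mem_filter]
        refine ⟨mem_DD.mpr (mem_FF.mp (hsub hB')).1, ?_⟩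
        rw [Finset.mem_insert, mem_DD] at hB'
        rcases hB' with h' | h'
        · rw [h']
          exact hbB
        · exact h'.2.1.trans hbB
      have h2 := Finset.card_le_card h1
      omega
  have hdec := p4 (g3.symm.trans g4)
  rw [decide_eq_true hge] at hdec
  have hdec' := p5 (g3.symm.trans g4)
  rw [decide_eq_true hQ] at hdec'
  refine ⟨of_decide_eq_true hdec, of_decide_eq_true hdec', fun B hB => hsub ?_⟩
  rw [Finset.mem_insert, mem_DD]
  exact hB.symm

end Pool.Agent.Hhelper34.Cop
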