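import Mathlib
import Pool.Agent.Hhelper34.Cop.Core

/-!
# Coprime pairs: `a` is not a `G`-th power with `G ≥ b`
-/

namespace Pool.Agent.Hhelper34.Cop

open Pool.Agent.Results.MP_1b773e_co

/-- the least exponent -/
noncomputable def mu (n : ℕ) : ℕ := sInf {v | ∃ q ∈ n.primeFactors, n.factorization q = v}

/-- the least prime factor with the least exponent -/
noncomputable def qm (n : ℕ) : ℕ := sInf {q | q ∈ n.primeFactors ∧ n.factorization q = mu n}

theorem mu_mem {n : ℕ} (hn : 1 < n) : ∃ q ∈ n.primeFactors, n.factorization q = mu n := by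
  apply Nat.sInf_mem (s := {v | ∃ q ∈ n.primeFactors, n.factorization q = v})
  exact ⟨_, n.minFac, Nat.mem_primeFactors.mpr ⟨Nat.minFac_prime (by omega), Nat.minFac_dvd n, by omega⟩, rfl⟩

theorem mu_le {n q : ℕ} (hq : q ∈ n.primeFactors) : mu n ≤ n.factorization q := Nat.sInf_le ⟨q, hq, rfl⟩

theorem qm_mem {n : ℕ} (hn : 1 < n) : qm n ∈ n.primeFactors ∧ n.factorization (qm n) = mu n := by
  obtain ⟨q, hq, hv⟩ := mu_mem hn
  exact Nat.sInf_mem (s := {q | q ∈ n.primeFactors ∧ n.factorization q = mu n}) ⟨q, hq, hv⟩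

theorem big_part {A b : ℕ} (hA : A ≠ 0) (hb : 1 < b) (hAb : A.Coprime b)
    (hbig : ∀ q ∈ A.primeFactors, b ≤ A.factorization q) : mu (A * b) = mu b ∧ qm (A * b) = qm b := by
  have hb0 : b ≠ 0 := by omega
  have hfact : ∀ q, (A * b).factorization q = A.factorization q + b.factorization q := fun q => by
    rw [Nat.factorization_mul hA hb0, Finsupp.add_apply]
  have hpf : (A * b).primeFactors = A.primeFactors ∪ b.primeFactors := Nat.primeFactors_mul hA hb0
  have hfb : ∀ q ∈ b.primeFactors, (A * b).factorization q = b.factorization q := by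
    intro q hq
    rw [Nat.mem_primeFactors] at hq
    rw [hfact, fact_zero_of hAb.symm (hq.1.factorization_pos_of_dvd hb0 hq.2.1).ne', zero_add]
  have hfA : ∀ q ∈ A.primeFactors, b ≤ (A * b).factorization q := by
    intro q hq
    rw [hfact]
    exact (hbig q hq).trans (Nat.le_add_right _ _)
  obtain ⟨q₀, hq₀, hv₀⟩ := mu_mem hb
  have hlt : mu b < b := by rw [← hv₀]; exact fact_lt hb0
  have hn1 : 1 < A * b := by
    have : 0 < A := Nat.pos_of_ne_zero hA
    nlinarith
  have h1 : mu (A * b) = mu b := by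
    apply le_antisymm
    · rw [← hv₀, ← hfb q₀ hq₀]
      exact mu_le (by rw [hpf]; exact Finset.mem_union_right _ hq₀)
    · obtain ⟨q, hq, hv⟩ := mu_mem hn1
      rw [← hv]
      rw [hpf, Finset.mem_union] at hq
      rcases hq with hq | hq
      · exact hlt.le.trans (hfA q hq)
      · rw [hfb q hq]
        exact mu_le hq
  refine ⟨h1, ?_⟩
  unfold qm
  congr 1
  ext q
  simp only [Set.mem_setOf_eq]
  rw [h1, hpf, Finset.mem_union]
  constructor
  · rintro ⟨hq | hq, hv⟩
    · have := hfA q hq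
      omega
    · exact ⟨hq, by rw [← hfb q hq]; exact hv⟩
  · rintro ⟨hq, hv⟩
    exact ⟨Or.inr hq, by rw [hfb q hq]; exact hv⟩

theorem not_power : ∃ (r : ℕ) (c : ℕ → Fin r), ∀ a b : ℕ, 1 < a → 1 < b → a.Coprime b →
    c a = c b → c a = c (a * b) → c a = c (a ^ b) → c a = c (a ^ b * b) → ∀ G s, a = s ^ G → G < b := by
  obtain ⟨r₀, hr₀⟩ := CommonData.result (1 / 4) (by norm_num)
  obtain ⟨c₀, h₀⟩ := hr₀ (ℕ × ℕ) (fun n => (mu n, qm n)) (fun x q => if q = x.2 then 1 / (2 * (x.1 : ℝ)) else 0)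
  refine ⟨r₀, c₀, ?_⟩
  intro a b ha hb hab e1 e2 e3 e4 G s hs
  by_contra hG
  push Not at hG
  have ha0 : a ≠ 0 := by omega
  have hb0 : b ≠ 0 := by omega
  have hA0 : a ^ b ≠ 0 := pow_ne_zero _ ha0
  have hbig : ∀ q ∈ a.primeFactors, b ≤ a.factorization q := by
    intro q hq
    rw [Nat.mem_primeFactors] at hq
    have hpos := hq.1.factorization_pos_of_dvd ha0 hq.2.1
    have h1 : G ∣ a.factorization q := by
      rw [hs, Nat.factorization_pow, Finsupp.smul_apply, smul_eq_mul]
      exact Dvd.intro _ rfl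
    exact hG.trans (Nat.le_of_dvd hpos h1)
  have hbig' : ∀ q ∈ (a ^ b).primeFactors, b ≤ (a ^ b).factorization q := by
    intro q hq
    rw [Nat.primeFactors_pow _ hb0] at hq
    rw [Nat.factorization_pow, Finsupp.smul_apply, smul_eq_mul]
    have := hbig q hq
    nlinarith
  obtain ⟨u1, u2⟩ := big_part ha0 hb hab hbig
  obtain ⟨w1, w2⟩ := big_part hA0 hb (Nat.Coprime.pow_left b hab) hbig'
  obtain ⟨m, hm⟩ := h₀ a b ha hb e1 e2 e3 e4 (by
    show (mu (a * b), qm (a * b)) = (mu (a ^ b * b), qm (a ^ b * b))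
    rw [u1, u2, w1, w2])
  obtain ⟨v1, v2⟩ := qm_mem hb
  have hpos : 0 < mu b := by
    rw [← v2]
    rw [Nat.mem_primeFactors] at v1
    exact v1.1.factorization_pos_of_dvd hb0 v1.2.1
  have hadd : CommonData.additive (fun q => if q = qm b then 1 / (2 * (mu b : ℝ)) else 0) b = 1 / 2 := by
    unfold CommonData.additive Finsupp.sum
    rw [Finset.sum_eq_single (qm b)]
    · show (b.factorization (qm b) : ℝ) * (if qm b = qm b then 1 / (2 * (mu b : ℝ)) else 0) = 1 / 2
      rw [if_pos rfl, v2]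
      have : (0:ℝ) < (mu b : ℝ) := by exact_mod_cast hpos
      field_simp
    · intro q _ hq'
      show (b.factorization q : ℝ) * (if q = qm b then 1 / (2 * (mu b : ℝ)) else 0) = 0
      rw [if_neg hq', mul_zero]
    · intro h
      rw [Finsupp.notMem_support_iff] at h
      omega
  have hm' : |CommonData.additive (fun q => if q = qm b then 1 / (2 * (mu b : ℝ)) else 0) b - m| < 1 / 4 := by
    have e : (fun q => if q = qm b then 1 / (2 * (mu b : ℝ)) else 0) =
        (fun (x : ℕ × ℕ) (q : ℕ) => if q = x.2 then 1 / (2 * (x.1 : ℝ)) else 0) (mu (a * b), qm (a * b)) := by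
      rw [u1, u2]
    rw [e]
    exact hm
  rw [hadd, abs_lt] at hm'
  have h1 : (m:ℝ) < 1 := by linarith
  have h2 : (0:ℝ) < m := by linarith
  have h3 : m < 1 := by exact_mod_cast h1
  have h4 : 0 < m := by exact_mod_cast h2
  omega

end Pool.Agent.Hhelper34.Cop
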