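import Mathlib
import Pool.Agent.Hhelper34.Cop.Core

/-!
# Coprime pairs: `b` is determined by a unitary divisor of `a` up to a factor `1 + ε`
-/

namespace Pool.Agent.Hhelper34.Cop

/-- the elements of `FF t n` as a chain of divisors `C` of `n` for which `n / C` is a `C`-th power -/
theorem FF_prop {t n C : ℕ} (ht : t ≠ 0) (h : C ∈ FF t n) : 1 < C ∧ C < n ∧ C ∣ n ∧ C.Coprime (n / C) ∧
    (∃ s, n / C = s ^ C) ∧ ∀ m s, t + 1 ≤ m * t → n / C ≠ s ^ C ^ m := by
  rw [mem_FF] at h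
  obtain ⟨h1, h2⟩ := h
  have hd := ee_mem h1
  have hdC : ee 1 1 n ∣ C := chain_one hd h1 (ee_le h1)
  obtain ⟨u1, u2, u3, u4, u5⟩ := h1
  refine ⟨u1, u2, u3, u4, ?_, ?_⟩
  · apply is_pow (Nat.div_pos u2.le (by omega)).ne'
    intro q
    have := u5 q
    rwa [pow_one] at this
  · intro m s hm hs
    apply h2
    intro q
    rw [hs, Nat.factorization_pow, Finsupp.smul_apply, smul_eq_mul, mul_pow]
    apply Dvd.dvd.mul_right
    rw [← pow_mul]
    exact (pow_dvd_pow_of_dvd hdC _).trans (pow_dvd_pow _ hm)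

theorem FF_chain {t n C C' : ℕ} (h : C ∈ FF t n) (h' : C' ∈ FF t n) (hle : C ≤ C') : C ∣ C' :=
  chain_one (mem_FF.mp h).1 (mem_FF.mp h').1 hle

theorem FF_pow {k t a b : ℕ} (ha : 1 < a) (hb : 1 < b) (hab : a.Coprime b) (ht : t ≠ 0)
    (hk : k ≤ (FF t (a ^ b)).card) : ∃ S : Finset ℕ, k ≤ S.card ∧
      (∀ c ∈ S, 1 < c ∧ c < a ∧ c ∣ a ∧ c.Coprime (a / c) ∧ (∃ s, a / c = s ^ c ^ b) ∧
        ∀ m s, b * (t + 1) ≤ m * t → a / c ≠ s ^ c ^ m) ∧
      ∀ c ∈ S, ∀ c' ∈ S, c ≤ c' → c ∣ c' := by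
  classical
  have ha0 : a ≠ 0 := by omega
  have hb0 : b ≠ 0 := by omega
  have hroot : ∀ x ∈ FF t (a ^ b), ∃ c, x = c ^ b ∧ c ∣ a ∧ c.Coprime (a / c) ∧ a ^ b / x = (a / c) ^ b := by
    intro x hx
    obtain ⟨h1, -⟩ := mem_FF.mp hx
    exact unitary_pow ha0 hb0 h1.2.2.1 h1.2.2.2.1
  refine ⟨(Finset.range a).filter (fun c => c ^ b ∈ FF t (a ^ b)), ?_, ?_, ?_⟩
  · refine hk.trans ?_
    have hsub : FF t (a ^ b) ⊆ ((Finset.range a).filter (fun c => c ^ b ∈ FF t (a ^ b))).image (fun c => c ^ b) := by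
      intro x hx
      obtain ⟨c, hc, hca, -⟩ := hroot x hx
      rw [Finset.mem_image]
      refine ⟨c, ?_, hc.symm⟩
      rw [Finset.mem_filter, Finset.mem_range]
      refine ⟨?_, hc ▸ hx⟩
      have h1 : x < a ^ b := (mem_FF.mp hx).1.2.1
      rw [hc] at h1
      exact lt_of_pow_lt_pow_left₀ b (Nat.zero_le _) h1
    exact (Finset.card_le_card hsub).trans Finset.card_image_le
  · intro c hc
    rw [Finset.mem_filter, Finset.mem_range] at hc
    obtain ⟨hca, hcF⟩ := hc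
    obtain ⟨c', hc', g1, g2, g3⟩ := hroot _ hcF
    have hcc : c = c' := Nat.pow_left_injective hb0 hc'
    subst hcc
    obtain ⟨h1, h2⟩ := mem_FF.mp hcF
    have hc1 : 1 < c := by
      by_contra hcon
      have hc01 : c = 0 ∨ c = 1 := by omega
      have := h1.1
      rcases hc01 with h | h
      · rw [h, zero_pow hb0] at this
        omega
      · rw [h, one_pow] at this
        omega
    have hcb : (c ^ b).Coprime b := Nat.Coprime.pow_left b (Nat.Coprime.coprime_dvd_left g1 hab)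
    refine ⟨hc1, hca, g1, g2, ?_, ?_⟩
    · apply is_pow (Nat.div_pos hca.le (by omega)).ne'
      intro q
      have e1 := h1.2.2.2.2 q
      rw [pow_one, g3, Nat.factorization_pow, Finsupp.smul_apply, smul_eq_mul] at e1
      exact Nat.Coprime.dvd_of_dvd_mul_left hcb e1
    · intro m s hm hs
      apply h2
      intro q
      have hd := ee_mem h1
      have hdC : ee 1 1 (a ^ b) ∣ c ^ b := chain_one hd h1 (ee_le h1)
      rw [g3, hs, Nat.factorization_pow, Nat.factorization_pow, Finsupp.smul_apply, Finsupp.smul_apply, smul_eq_mul,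
        smul_eq_mul, mul_pow, mul_pow]
      apply Dvd.dvd.mul_left
      apply Dvd.dvd.mul_right
      rw [← pow_mul]
      refine (pow_dvd_pow_of_dvd hdC _).trans ?_
      rw [← pow_mul]
      exact pow_dvd_pow _ hm
  · intro c hc c' hc' hle
    rw [Finset.mem_filter] at hc hc'
    have h1 := FF_chain hc.2 hc'.2 (Nat.pow_le_pow_left hle b)
    exact (Nat.pow_dvd_pow_iff hb0).mp h1

/-- the unitary divisors `c` of `a`, different from `1` and `a`, for which `a / c` is a `c ^ b`-th power -/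
def VV (a b : ℕ) : Set ℕ := {c | 1 < c ∧ c < a ∧ c ∣ a ∧ c.Coprime (a / c) ∧ ∃ s, a / c = s ^ c ^ b}

theorem mem_VV_iff {a b c : ℕ} (ha : 1 < a) (hb : 1 < b) (hab : a.Coprime b) :
    c ∈ VV a b ↔ c ^ b ∈ DD (a ^ b) := by
  have ha0 : a ≠ 0 := by omega
  have hb0 : b ≠ 0 := by omega
  rw [mem_DD]
  constructor
  · rintro ⟨h1, h2, h3, h4, s, h5⟩
    have hquot : a ^ b / c ^ b = (a / c) ^ b := (Nat.div_pow h3).symm
    refine ⟨Nat.one_lt_pow hb0 h1, Nat.pow_lt_pow_left h2 hb0, pow_dvd_pow_of_dvd h3 b, ?_, ?_⟩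
    · rw [hquot]
      exact Nat.Coprime.pow b b h4
    · intro q
      rw [hquot, pow_one, Nat.factorization_pow, Finsupp.smul_apply, smul_eq_mul, h5, Nat.factorization_pow,
        Finsupp.smul_apply, smul_eq_mul]
      exact Dvd.dvd.mul_left (Dvd.intro _ rfl) _
  · intro h1
    obtain ⟨c', hc', g1, g2, g3⟩ := unitary_pow ha0 hb0 h1.2.2.1 h1.2.2.2.1
    have hcc : c = c' := Nat.pow_left_injective hb0 hc'
    subst hcc
    have hc1 : 1 < c := by
      by_contra hcon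
      have hc01 : c = 0 ∨ c = 1 := by omega
      have := h1.1
      rcases hc01 with h | h
      · rw [h, zero_pow hb0] at this
        omega
      · rw [h, one_pow] at this
        omega
    have hca : c < a := lt_of_pow_lt_pow_left₀ b (Nat.zero_le _) h1.2.1
    have hcb : (c ^ b).Coprime b := Nat.Coprime.pow_left b (Nat.Coprime.coprime_dvd_left g1 hab)
    refine ⟨hc1, hca, g1, g2, ?_⟩
    apply is_pow (Nat.div_pos hca.le (by omega)).ne'
    intro q
    have e1 := h1.2.2.2.2 q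
    rw [pow_one, g3, Nat.factorization_pow, Finsupp.smul_apply, smul_eq_mul] at e1
    exact Nat.Coprime.dvd_of_dvd_mul_left hcb e1

theorem root_DD {a b x : ℕ} (ha : 1 < a) (hb : 1 < b) (hab : a.Coprime b) (hx : x ∈ DD (a ^ b)) :
    ∃ c ∈ VV a b, x = c ^ b := by
  have h1 := mem_DD.mp hx
  obtain ⟨c, hc, -⟩ := unitary_pow (by omega) (by omega) h1.2.2.1 h1.2.2.2.1
  exact ⟨c, (mem_VV_iff ha hb hab).mpr (hc ▸ hx), hc⟩

theorem ncard_eq {a b : ℕ} (ha : 1 < a) (hb : 1 < b) (hab : a.Coprime b) (T : Set ℕ) (U : Finset ℕ)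
    (h1 : ∀ c, c ∈ T → c ^ b ∈ U) (h2 : ∀ x ∈ U, ∃ c ∈ T, x = c ^ b) : T.ncard = U.card := by
  have hinj : Function.Injective (fun c : ℕ => c ^ b) := fun x y hxy => Nat.pow_left_injective (by omega) hxy
  have : (fun c : ℕ => c ^ b) '' T = (U : Set ℕ) := by
    ext x
    constructor
    · rintro ⟨c, hc, rfl⟩
      exact h1 c hc
    · intro hx
      obtain ⟨c, hc, rfl⟩ := h2 x hx
      exact ⟨c, hc, rfl⟩
  rw [← Set.ncard_image_of_injective T hinj, this, Set.ncard_coe_finset]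

theorem VV_of_QQ {k t a b : ℕ} (ha : 1 < a) (hb : 1 < b) (hab : a.Coprime b) (ht : t ≠ 0) (hQ : QQ k t (a ^ b)) :
    k ≤ (VV a b).ncard ∧ (∀ c ∈ VV a b, {c' ∈ VV a b | c' < c}.ncard < k →
      ∀ m s, b * (t + 1) ≤ m * t → a / c ≠ s ^ c ^ m) ∧ ∀ c ∈ VV a b, ∀ c' ∈ VV a b, c ≤ c' → c ∣ c' := by
  classical
  have hb0 : b ≠ 0 := by omega
  have hcard : (VV a b).ncard = (DD (a ^ b)).card :=
    ncard_eq ha hb hab _ _ (fun c hc => (mem_VV_iff ha hb hab).mp hc) (fun x hx => root_DD ha hb hab hx)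
  refine ⟨by rw [hcard]; exact hQ.1, ?_, ?_⟩
  · intro c hc hrank m s hm hs
    have hcD := (mem_VV_iff ha hb hab).mp hc
    have hrank' : {c' ∈ VV a b | c' < c}.ncard = ((DD (a ^ b)).filter (· < c ^ b)).card := by
      apply ncard_eq ha hb hab
      · rintro c' ⟨h1, h2⟩
        rw [Finset.mem_filter]
        exact ⟨(mem_VV_iff ha hb hab).mp h1, Nat.pow_lt_pow_left h2 hb0⟩
      · intro x hx
        rw [Finset.mem_filter] at hx
        obtain ⟨c', hc', rfl⟩ := root_DD ha hb hab hx.1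
        exact ⟨c', ⟨hc', lt_of_pow_lt_pow_left₀ b (Nat.zero_le _) hx.2⟩, rfl⟩
    rw [hrank'] at hrank
    obtain ⟨h1, h2⟩ := mem_FF.mp (hQ.2 _ hcD hrank)
    apply h2
    intro q
    have hd := ee_mem h1
    have hdC : ee 1 1 (a ^ b) ∣ c ^ b := chain_one hd h1 (ee_le h1)
    have g3 : a ^ b / c ^ b = (a / c) ^ b := (Nat.div_pow hc.2.2.1).symm
    rw [g3, hs, Nat.factorization_pow, Nat.factorization_pow, Finsupp.smul_apply, Finsupp.smul_apply, smul_eq_mul,
      smul_eq_mul, mul_pow, mul_pow]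
    apply Dvd.dvd.mul_left
    apply Dvd.dvd.mul_right
    rw [← pow_mul]
    refine (pow_dvd_pow_of_dvd hdC _).trans ?_
    rw [← pow_mul]
    exact pow_dvd_pow _ hm
  · intro c hc c' hc' hle
    have h1 := chain_one (mem_DD.mp ((mem_VV_iff ha hb hab).mp hc)) (mem_DD.mp ((mem_VV_iff ha hb hab).mp hc'))
      (Nat.pow_le_pow_left hle b)
    exact (Nat.pow_dvd_pow_iff hb0).mp h1

end Pool.Agent.Hhelper34.Cop
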