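import Mathlib
import Pool.Agent.Hhelper34.Cop.One

/-!
# Coprime pairs: the exponents of `a / c` are divisible by `(b * c ^ b) ^ k`
-/

namespace Pool.Agent.Hhelper34.Cop

/-- the elements `C` of `DD n` whose `k`-th power divides all exponents of `n / C` -/
noncomputable def RR (k n : ℕ) : Finset ℕ := by
  classical exact (DD n).filter (fun C => ∀ q, C ^ k ∣ (n / C).factorization q)

theorem mem_RR {k n C : ℕ} : C ∈ RR k n ↔ PD 1 1 n C ∧ ∀ q, C ^ k ∣ (n / C).factorization q := by
  classical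
  unfold RR
  rw [Finset.mem_filter, mem_DD]

theorem three (k : ℕ) : ∃ (r : ℕ) (c : ℕ → Fin r), ∀ a b : ℕ, 1 < a → 1 < b →
    a.Coprime b → c a = c b → c a = c (a * b) → c a = c (a ^ b) → c a = c (a ^ b * b) →
    (∃ S : Finset ℕ, k ≤ S.card ∧ ∀ x ∈ S, 1 < x ∧ x < a ∧ x ∣ a ∧ x.Coprime (a / x) ∧
      ∃ s, a / x = s ^ (b * x ^ b) ^ k) ∧
    ∀ n ∈ ({a, b, a * b, a ^ b, a ^ b * b} : Set ℕ), k ≤ (RR (k + 2) n).card := by
  classical
  obtain ⟨r₁, c₁, h₁⟩ := core k 1 one_ne_zero
  let X := Fin r₁ × (Fin (k + 3) × Bool)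
  let f : ℕ → X := fun n => (c₁ n, (⟨min n (k + 2), by omega⟩, decide (k ≤ (RR (k + 2) n).card)))
  refine ⟨Fintype.card X, fun n => Fintype.equivFin X (f n), ?_⟩
  intro a b ha hb hab e1 e2 e3 e4
  have g1 : f a = f b := (Fintype.equivFin X).injective e1
  have g2 : f a = f (a * b) := (Fintype.equivFin X).injective e2
  have g3 : f a = f (a ^ b) := (Fintype.equivFin X).injective e3
  have g4 : f a = f (a ^ b * b) := (Fintype.equivFin X).injective e4
  have p1 : ∀ {x y : ℕ}, f x = f y → c₁ x = c₁ y := fun h => congrArg Prod.fst h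
  have p3 : ∀ {x y : ℕ}, f x = f y → min x (k + 2) = min y (k + 2) := fun h => congrArg (fun z => z.2.1.val) h
  have p4 : ∀ {x y : ℕ}, f x = f y →
      decide (k ≤ (RR (k + 2) x).card) = decide (k ≤ (RR (k + 2) y).card) := fun h => congrArg (fun z => z.2.2) h
  obtain ⟨hF, -, hBad⟩ := h₁ a b ha hb hab (p1 g1) (p1 g2) (p1 g3) (p1 g4)
  obtain ⟨S, hS1, hS2, -⟩ := FF_pow ha hb hab one_ne_zero hF
  have ha0 : a ≠ 0 := by omega
  have hb0 : b ≠ 0 := by omega
  have hbig : k + 2 ≤ b := by
    by_contra hcon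
    have h1 := p3 g1
    have h2 : a = b := by omega
    rw [h2, Nat.coprime_self] at hab
    omega
  -- the property holds for `a`
  have hRa : k ≤ (RR (k + 2) a).card := by
    refine hS1.trans (Finset.card_le_card ?_)
    intro x hx
    obtain ⟨u1, u2, u3, u4, ⟨s, hs⟩, -⟩ := hS2 x hx
    have hexp : ∀ q, x ^ b ∣ (a / x).factorization q := by
      intro q
      rw [hs, Nat.factorization_pow, Finsupp.smul_apply, smul_eq_mul]
      exact Dvd.intro _ rfl
    rw [mem_RR]
    refine ⟨⟨u1, u2, u3, u4, fun q => ?_⟩, fun q => (pow_dvd_pow x hbig).trans (hexp q)⟩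
    rw [pow_one]
    exact (dvd_pow_self x hb0).trans (hexp q)
  -- so it holds for all five numbers
  have hall : ∀ m, f a = f m → k ≤ (RR (k + 2) m).card := fun m hm => by
    have := p4 hm
    rw [decide_eq_true hRa] at this
    exact of_decide_eq_true this.symm
  have hRn : k ≤ (RR (k + 2) (a ^ b * b)).card := hall _ g4
  refine ⟨?_, fun n hn => ?_⟩
  swap
  · rcases hn with rfl | rfl | rfl | rfl | rfl
    · exact hall _ rfl
    · exact hall _ g1
    · exact hall _ g2
    · exact hall _ g3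
    · exact hall _ g4
  refine ⟨(Finset.range a).filter (fun c => b * c ^ b ∈ RR (k + 2) (a ^ b * b)), ?_, ?_⟩
  · refine hRn.trans ?_
    have hsub : RR (k + 2) (a ^ b * b) ⊆
        ((Finset.range a).filter (fun c => b * c ^ b ∈ RR (k + 2) (a ^ b * b))).image (fun c => b * c ^ b) := by
      intro C hC
      obtain ⟨h1, h2⟩ := mem_RR.mp hC
      have hnot : ¬ (PD 1 1 b C ∨ C = b) := by
        intro hcase
        obtain ⟨-, h3⟩ := mem_FF.mp (hBad C hcase)
        apply h3
        intro q
        have hd := ee_mem h1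
        have hdC : ee 1 1 (a ^ b * b) ∣ C := chain_one hd h1 (ee_le h1)
        rw [pow_one]
        refine ((pow_dvd_pow_of_dvd hdC _).trans (pow_dvd_pow C ?_)).trans (h2 q)
        omega
      rcases (decomp ha hb hab C).mp h1 with h | h | ⟨x, hx, hxC⟩
      · exact absurd (Or.inl h) hnot
      · exact absurd (Or.inr h) hnot
      · obtain ⟨c, hc, hca, -⟩ := unitary_pow ha0 hb0 hx.2.2.1 hx.2.2.2.1
        rw [Finset.mem_image]
        refine ⟨c, ?_, by rw [hxC, hc]⟩
        rw [Finset.mem_filter, Finset.mem_range]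
        refine ⟨?_, by rw [← hc, ← hxC]; exact hC⟩
        have h5 : x < a ^ b := hx.2.1
        rw [hc] at h5
        exact lt_of_pow_lt_pow_left₀ b (Nat.zero_le _) h5
    exact (Finset.card_le_card hsub).trans Finset.card_image_le
  · intro c hc
    rw [Finset.mem_filter, Finset.mem_range] at hc
    obtain ⟨hca, hcR⟩ := hc
    obtain ⟨h1, h2⟩ := mem_RR.mp hcR
    have hc1 : 1 < c := by
      by_contra hcon
      have hc01 : c = 0 ∨ c = 1 := by omega
      rcases hc01 with h | h
      · have := h1.1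
        rw [h, zero_pow hb0, mul_zero] at this
        omega
      · rw [h, one_pow, mul_one] at h1 h2
        obtain ⟨-, h3⟩ := mem_FF.mp (hBad b (Or.inr rfl))
        apply h3
        intro q
        have hd := ee_mem h1
        have hdC : ee 1 1 (a ^ b * b) ∣ b := chain_one hd h1 (ee_le h1)
        rw [pow_one]
        refine ((pow_dvd_pow_of_dvd hdC _).trans (pow_dvd_pow b ?_)).trans (h2 q)
        omega
    -- `c ^ b` is a unitary divisor of `a ^ b`
    obtain ⟨-, -, h3, h4, -⟩ := h1
    have hcb : c ^ b ∣ a ^ b := by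
      rw [mul_comm (a ^ b) b] at h3
      exact Nat.dvd_of_mul_dvd_mul_left (by omega) h3
    obtain ⟨y, hy⟩ := hcb
    have hc0 : 0 < c ^ b := by positivity
    have hquot : a ^ b * b / (b * c ^ b) = y := by
      have : a ^ b * b = b * c ^ b * y := by rw [hy]; ring
      rw [this, Nat.mul_div_cancel_left _ (by positivity)]
    have hquot' : a ^ b / c ^ b = y := by rw [hy, Nat.mul_div_cancel_left _ hc0]
    rw [hquot] at h4 h2
    have hcy : (c ^ b).Coprime y := Nat.Coprime.coprime_dvd_left (Dvd.intro_left b rfl) h4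
    obtain ⟨c', v1, v2, v3, v4⟩ := unitary_pow ha0 hb0 ⟨y, hy⟩ (by rw [hquot']; exact hcy)
    have hcc : c = c' := Nat.pow_left_injective hb0 v1
    subst hcc
    refine ⟨hc1, hca, v2, v3, ?_⟩
    apply is_pow (Nat.div_pos hca.le (by omega)).ne'
    intro q
    have e5 := h2 q
    rw [← hquot', v4, Nat.factorization_pow, Finsupp.smul_apply, smul_eq_mul] at e5
    have e6 : b * (b * c ^ b) ^ k ∣ b * (a / c).factorization q := by
      refine Dvd.dvd.trans ?_ e5
      have : (b * c ^ b) ^ (k + 2) = b * (b * c ^ b) ^ k * (c ^ b * (b * c ^ b)) := by ring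
      rw [this]
      exact Dvd.intro _ rfl
    exact Nat.dvd_of_mul_dvd_mul_left (by omega) e6

end Pool.Agent.Hhelper34.Cop
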