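import Mathlib
import Pool.Agent.Hhelper34.Cop.One
import Pool.Agent.Hhelper34.Cop.Mu

/-!
# Coprime pairs: many unitary divisors `c` of `a` for which `a / c` is a `G`-th power with `G > c ^ (b ^ A)`
-/

namespace Pool.Agent.Hhelper34.Cop

/-- `C` is a unitary divisor of `n` with `1 < C < n` and `n / C` is a `G`-th power for some `G ≥ C ^ X` -/
def UP (X n C : ℕ) : Prop :=
  1 < C ∧ C < n ∧ C ∣ n ∧ C.Coprime (n / C) ∧ ∃ G s, C ^ X ≤ G ∧ n / C = s ^ G

/-- the set of the `C` with `UP X n C` -/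
noncomputable def SS (X n : ℕ) : Finset ℕ := by
  classical exact (Finset.range n).filter (fun C => UP X n C)

theorem mem_SS {X n C : ℕ} : C ∈ SS X n ↔ UP X n C := by
  classical
  unfold SS
  rw [Finset.mem_filter, Finset.mem_range]
  exact ⟨fun h => h.2, fun h => ⟨h.2.1, h⟩⟩

theorem pow_bound {n G s : ℕ} (hn : 1 < n) (h : n = s ^ G) : 2 ^ G ≤ n := by
  have hs : 2 ≤ s := by
    by_contra hcon
    have h01 : s = 0 ∨ s = 1 := by omega
    rcases h01 with h0 | h0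
    · rw [h0] at h
      rcases Nat.eq_zero_or_pos G with hG | hG
      · rw [hG, pow_zero] at h
        omega
      · rw [zero_pow (by omega)] at h
        omega
    · rw [h0, one_pow] at h
      omega
  rw [h]
  exact Nat.pow_le_pow_left hs G

theorem quot_gt {n C : ℕ} (h1 : 1 < C) (h2 : C < n) (h3 : C ∣ n) : 1 < n / C := by
  obtain ⟨m, rfl⟩ := h3
  rw [Nat.mul_div_cancel_left _ (by omega)]
  by_contra hcon
  have : m = 0 ∨ m = 1 := by omega
  rcases this with h | h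
  · rw [h, mul_zero] at h2
    omega
  · rw [h, mul_one] at h2
    omega

/-- the greatest `e` such that at least `k` numbers `C` satisfy `UP (2 ^ (2 ^ e)) n C` -/
noncomputable def EE (k n : ℕ) : ℕ := by
  classical exact Nat.findGreatest (fun e => k ≤ (SS (2 ^ (2 ^ e)) n).card) n

theorem le_of_card {k e n : ℕ} (hk : 0 < k) (h : k ≤ (SS (2 ^ (2 ^ e)) n).card) : e ≤ n := by
  have hne : (SS (2 ^ (2 ^ e)) n).Nonempty := Finset.card_pos.mp (by omega)
  obtain ⟨C, hC⟩ := hne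
  obtain ⟨h1, h2, h3, -, G, s, h4, h5⟩ := mem_SS.mp hC
  have h6 := pow_bound (quot_gt h1 h2 h3) h5
  have h7 : n / C ≤ n := Nat.div_le_self _ _
  have h8 : e < 2 ^ e := Nat.lt_two_pow_self
  have h9 : 2 ^ e < 2 ^ (2 ^ e) := Nat.lt_two_pow_self
  have h10 : 2 ^ (2 ^ e) < C ^ (2 ^ (2 ^ e)) :=
    lt_of_lt_of_le Nat.lt_two_pow_self (Nat.pow_le_pow_left (by omega) _)
  have h11 : G < 2 ^ G := Nat.lt_two_pow_self
  omega

theorem EE_max {k e n : ℕ} (hk : 0 < k) (h : k ≤ (SS (2 ^ (2 ^ e)) n).card) : e ≤ EE k n := by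
  classical
  unfold EE
  exact Nat.le_findGreatest (le_of_card hk h) h

theorem EE_spec {k e n : ℕ} (hk : 0 < k) (h : k ≤ (SS (2 ^ (2 ^ e)) n).card) :
    k ≤ (SS (2 ^ (2 ^ (EE k n))) n).card := by
  classical
  unfold EE
  exact Nat.findGreatest_spec (P := fun e => k ≤ (SS (2 ^ (2 ^ e)) n).card) (le_of_card hk h) h

theorem EE_ne {k n : ℕ} (h : EE k n ≠ 0) : k ≤ (SS (2 ^ (2 ^ (EE k n))) n).card := by
  classical
  unfold EE at h ⊢
  exact Nat.findGreatest_of_ne_zero (P := fun e => k ≤ (SS (2 ^ (2 ^ e)) n).card) rfl h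

theorem four_mul_lt : ∀ y : ℕ, 5 ≤ y → 4 * y + 1 ≤ 2 ^ y := by
  intro y hy
  induction y, hy using Nat.le_induction with
  | base => norm_num
  | succ y hy ih =>
    rw [pow_succ]
    omega

/-- from `a` to `a * b` -/
theorem up_mul {a b c E : ℕ} (hb : 65536 ≤ b) (hab : a.Coprime b) (hE : 1 ≤ E)
    (hbE : b < 2 ^ (2 ^ (E + 1))) (h : UP (2 ^ (2 ^ E)) a c) : UP (2 ^ (2 ^ (E - 1))) (a * b) (b * c) := by
  obtain ⟨h1, h2, h3, h4, G, s, h5, h6⟩ := h
  obtain ⟨j, rfl⟩ : ∃ j, E = j + 1 := ⟨E - 1, by omega⟩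
  rw [Nat.add_sub_cancel]
  obtain ⟨X, hX⟩ : ∃ X, X = 2 ^ (2 ^ j) := ⟨_, rfl⟩
  have hX2 : 2 ^ (2 ^ (j + 1)) = X * X := by rw [hX, pow_succ, pow_mul, pow_two]
  have hX4 : 2 ^ (2 ^ (j + 1 + 1)) = (X * X) * (X * X) := by
    rw [pow_succ, pow_mul, ← hX2, pow_two]
  rw [← hX]
  rw [hX2] at h5
  rw [hX4] at hbE
  have hj : 3 ≤ j := by
    by_contra hcon
    have hX16 : X ≤ 16 := by
      rw [hX]
      have : 2 ^ j ≤ 2 ^ 2 := Nat.pow_le_pow_right (by norm_num) (by omega)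
      calc 2 ^ (2 ^ j) ≤ 2 ^ (2 ^ 2) := Nat.pow_le_pow_right (by norm_num) this
        _ = 16 := by norm_num
    have : X * X ≤ 16 * 16 := Nat.mul_le_mul hX16 hX16
    have : (X * X) * (X * X) ≤ (16 * 16) * (16 * 16) := Nat.mul_le_mul this this
    omega
  have hy : 5 ≤ 2 ^ j := by
    have : 2 ^ 3 ≤ 2 ^ j := Nat.pow_le_pow_right (by norm_num) hj
    omega
  have hX1 : 1 ≤ X := by rw [hX]; exact Nat.one_le_two_pow
  have hbX : b ≤ c ^ (X - 1) := by
    have e1 : (X * X) * (X * X) = 2 ^ (4 * 2 ^ j) := by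
      rw [hX, ← pow_add, ← pow_add]
      congr 1
      ring
    have e2 : 4 * 2 ^ j ≤ X - 1 := by
      have := four_mul_lt (2 ^ j) hy
      rw [← hX] at this
      omega
    calc b ≤ 2 ^ (4 * 2 ^ j) := by rw [← e1]; exact hbE.le
      _ ≤ 2 ^ (X - 1) := Nat.pow_le_pow_right (by norm_num) e2
      _ ≤ c ^ (X - 1) := Nat.pow_le_pow_left (by omega) _
  have hc0 : 0 < c := by omega
  obtain ⟨m, hm⟩ := h3
  have hac : a / c = m := by rw [hm, Nat.mul_div_cancel_left _ hc0]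
  rw [hac] at h4 h6
  have hquot : a * b / (b * c) = m := by
    have : a * b = b * c * m := by rw [hm]; ring
    rw [this, Nat.mul_div_cancel_left _ (by positivity)]
  refine ⟨?_, ?_, ?_, ?_, G, s, ?_, by rw [hquot, h6]⟩
  · nlinarith
  · rw [mul_comm b c]
    exact Nat.mul_lt_mul_of_pos_right h2 (by omega)
  · rw [mul_comm b c]
    exact Nat.mul_dvd_mul_right ⟨m, hm⟩ b
  · rw [hquot]
    have : m ∣ a := Dvd.intro_left c hm.symm
    exact Nat.Coprime.mul_left (Nat.Coprime.coprime_dvd_left this hab).symm h4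
  · calc (b * c) ^ X ≤ (c ^ (X - 1) * c) ^ X := Nat.pow_le_pow_left (Nat.mul_le_mul_right c hbX) X
      _ = c ^ (X * X) := by
        rw [← pow_succ, ← pow_mul]
        congr 1
        rw [Nat.sub_add_cancel hX1]
      _ ≤ G := h5

/-- from `a * b` to `a` -/
theorem up_div {a b C X : ℕ} (ha : 1 < a) (hb : 1 < b) (hab : a.Coprime b) (hbX : b ≤ X)
    (hnp : ∀ G s, a = s ^ G → G < b) (h : UP X (a * b) C) : ∃ c, C = b * c ∧ UP X a c := by
  obtain ⟨h1, h2, h3, h4, G, s, h5, h6⟩ := h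
  have hC0 : C ≠ 0 := by omega
  have hCeq : C = Nat.gcd C a * Nat.gcd C b := by
    rw [← Nat.Coprime.gcd_mul C hab]
    exact (Nat.gcd_eq_left h3).symm
  obtain ⟨d, hd⟩ : ∃ d, d = Nat.gcd C b := ⟨_, rfl⟩
  obtain ⟨c, hc⟩ : ∃ c, c = Nat.gcd C a := ⟨_, rfl⟩
  rw [← hd, ← hc] at hCeq
  have hdb : d ∣ b := hd ▸ Nat.gcd_dvd_right _ _
  have hca : c ∣ a := hc ▸ Nat.gcd_dvd_right _ _
  have hd0 : 0 < d := Nat.pos_of_dvd_of_pos hdb (by omega)
  have hc0 : 0 < c := Nat.pos_of_dvd_of_pos hca (by omega)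
  obtain ⟨y, hy⟩ := hca
  obtain ⟨z, hz⟩ := hdb
  have hy0 : y ≠ 0 := fun h0 => by rw [h0, mul_zero] at hy; omega
  have hz0 : z ≠ 0 := fun h0 => by rw [h0, mul_zero] at hz; omega
  have hquot : a * b / C = y * z := by
    have e : a * b = C * (y * z) := by
      calc a * b = (c * y) * (d * z) := by rw [← hy, ← hz]
        _ = C * (y * z) := by rw [hCeq]; ring
    rw [e, Nat.mul_div_cancel_left _ (Nat.pos_of_ne_zero hC0)]
  rw [hquot] at h4 h6
  have hyz : y.Coprime z := by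
    apply Nat.Coprime.coprime_dvd_left (Dvd.intro_left c hy.symm)
    exact Nat.Coprime.coprime_dvd_right (Dvd.intro_left d hz.symm) hab
  have hGb : b < G := by
    calc b ≤ X := hbX
      _ < 2 ^ X := Nat.lt_two_pow_self
      _ ≤ C ^ X := Nat.pow_le_pow_left (by omega) X
      _ ≤ G := h5
  -- `z = 1`
  have hz1 : z = 1 := by
    by_contra hne
    obtain ⟨r, hr⟩ : ∃ r, z = r ^ G :=
      exists_eq_pow_of_mul_eq_pow (α := ℕ) (by rw [Nat.isUnit_iff]; exact hyz.symm) ((mul_comm z y).trans h6)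
    have e1 := pow_bound (by omega) hr
    have e2 : z ≤ b := Nat.le_of_dvd (by omega) (Dvd.intro_left d hz.symm)
    have e3 : G < 2 ^ G := Nat.lt_two_pow_self
    omega
  rw [hz1, mul_one] at hz h6 h4
  have hC' : C = b * c := by rw [hCeq, ← hz, mul_comm]
  have hac : a / c = y := by rw [hy, Nat.mul_div_cancel_left _ hc0]
  have hc1 : 1 < c := by
    by_contra hcon
    have hc1 : c = 1 := by omega
    rw [hc1, one_mul] at hy
    have := hnp G s (by rw [hy, h6])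
    omega
  refine ⟨c, hC', hc1, ?_, ⟨y, hy⟩, ?_, G, s, ?_, by rw [hac, h6]⟩
  · have h7 : b * c < b * a := by
      rw [← hC', mul_comm b a]
      exact h2
    exact Nat.lt_of_mul_lt_mul_left h7
  · rw [hac]
    exact Nat.Coprime.coprime_dvd_left ⟨d, hCeq⟩ h4
  · refine le_trans (Nat.pow_le_pow_left ?_ X) h5
    rw [hCeq]
    exact Nat.le_mul_of_pos_right c hd0

theorem two (k A : ℕ) (hk : 0 < k) (hA : 0 < A) : ∃ (r : ℕ) (c : ℕ → Fin r), ∀ a b : ℕ, 1 < a → 1 < b →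
    a.Coprime b → c a = c b → c a = c (a * b) → c a = c (a ^ b) → c a = c (a ^ b * b) →
    ∃ S : Finset ℕ, k ≤ S.card ∧ ∀ x ∈ S, 1 < x ∧ x < a ∧ x ∣ a ∧ x.Coprime (a / x) ∧
      ∃ G s, x ^ b ^ A < G ∧ a / x = s ^ G := by
  classical
  obtain ⟨r₁, c₁, h₁⟩ := core k 1 one_ne_zero
  obtain ⟨r₂, c₂, h₂⟩ := not_power
  let ψ : ℕ → ℕ := fun n => ⌊(A : ℝ) * Real.logb 2 n / 2 ^ (EE k n)⌋₊
  let X := (Fin r₁ × Fin r₂) × ((Fin 65537 × Fin 2) × Fin (2 * A + 1))
  let f : ℕ → X := fun n => ((c₁ n, c₂ n), ((⟨min n 65536, by omega⟩, ⟨EE k n % 2, Nat.mod_lt _ (by norm_num)⟩),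
    ⟨ψ n % (2 * A + 1), Nat.mod_lt _ (by omega)⟩))
  refine ⟨Fintype.card X, fun n => Fintype.equivFin X (f n), ?_⟩
  intro a b ha hb hab e1 e2 e3 e4
  have g1 : f a = f b := (Fintype.equivFin X).injective e1
  have g2 : f a = f (a * b) := (Fintype.equivFin X).injective e2
  have g3 : f a = f (a ^ b) := (Fintype.equivFin X).injective e3
  have g4 : f a = f (a ^ b * b) := (Fintype.equivFin X).injective e4
  have p1 : ∀ {x y : ℕ}, f x = f y → c₁ x = c₁ y := fun h => congrArg (fun z => z.1.1) h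
  have p2 : ∀ {x y : ℕ}, f x = f y → c₂ x = c₂ y := fun h => congrArg (fun z => z.1.2) h
  have p3 : ∀ {x y : ℕ}, f x = f y → min x 65536 = min y 65536 := fun h => congrArg (fun z => z.2.1.1.val) h
  have p4 : ∀ {x y : ℕ}, f x = f y → EE k x % 2 = EE k y % 2 := fun h => congrArg (fun z => z.2.1.2.val) h
  have p5 : ∀ {x y : ℕ}, f x = f y → ψ x % (2 * A + 1) = ψ y % (2 * A + 1) := fun h =>
    congrArg (fun z => z.2.2.val) h
  have hnp := h₂ a b ha hb hab (p2 g1) (p2 g2) (p2 g3) (p2 g4)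
  obtain ⟨S, hS1, hS2, -⟩ := FF_pow ha hb hab one_ne_zero (h₁ a b ha hb hab (p1 g1) (p1 g2) (p1 g3) (p1 g4)).1
  -- `b` is large
  have hbig : 65536 ≤ b := by
    by_contra hcon
    have h1 := p3 g1
    have h2 : a = b := by omega
    rw [h2, Nat.coprime_self] at hab
    omega
  -- `S` is contained in `SS b a`
  have hSX : ∀ Y, Y ≤ b → k ≤ (SS Y a).card := by
    intro Y hY
    refine hS1.trans (Finset.card_le_card ?_)
    intro x hx
    obtain ⟨u1, u2, u3, u4, ⟨s, hs⟩, -⟩ := hS2 x hx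
    rw [mem_SS]
    exact ⟨u1, u2, u3, u4, x ^ b, s, Nat.pow_le_pow_right (by omega) hY, hs⟩
  obtain ⟨E, hE⟩ : ∃ E, E = EE k a := ⟨_, rfl⟩
  have hP0 : k ≤ (SS (2 ^ (2 ^ 0)) a).card := hSX _ (by norm_num; omega)
  have hPE : k ≤ (SS (2 ^ (2 ^ E)) a).card := hE ▸ EE_spec hk hP0
  have hbE : b < 2 ^ (2 ^ (E + 1)) := by
    by_contra hcon
    push Not at hcon
    have := EE_max hk (hSX _ hcon)
    omega
  have hE1 : 1 ≤ E := by
    by_contra hcon
    have : E = 0 := by omega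
    rw [this] at hbE
    norm_num at hbE
    omega
  -- `EE (a * b)`
  have hEab1 : E - 1 ≤ EE k (a * b) := by
    apply EE_max hk
    refine hPE.trans ?_
    have hinj : Function.Injective (fun c => b * c) := fun x y hxy => Nat.eq_of_mul_eq_mul_left (by omega) hxy
    rw [← Finset.card_image_of_injective _ hinj]
    apply Finset.card_le_card
    intro C hC
    rw [Finset.mem_image] at hC
    obtain ⟨c, hc, rfl⟩ := hC
    rw [mem_SS] at hc ⊢
    exact up_mul hbig hab hE1 hbE hc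
  have hEab2 : EE k (a * b) ≤ E := by
    by_contra hcon
    push Not at hcon
    obtain ⟨e', he'⟩ : ∃ e', e' = EE k (a * b) := ⟨_, rfl⟩
    have hP : k ≤ (SS (2 ^ (2 ^ e')) (a * b)).card := by
      rw [he']
      exact EE_ne (by omega)
    have hbX : b ≤ 2 ^ (2 ^ e') := by
      refine hbE.le.trans ?_
      apply Nat.pow_le_pow_right (by norm_num)
      exact Nat.pow_le_pow_right (by norm_num) (by omega)
    have hsub : SS (2 ^ (2 ^ e')) (a * b) ⊆ (SS (2 ^ (2 ^ e')) a).image (fun c => b * c) := by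
      intro C hC
      obtain ⟨c, hc, hc'⟩ := up_div ha hb hab hbX hnp (mem_SS.mp hC)
      rw [Finset.mem_image]
      exact ⟨c, mem_SS.mpr hc', hc.symm⟩
    have h3 := hP.trans ((Finset.card_le_card hsub).trans Finset.card_image_le)
    have h4 := EE_max hk h3
    omega
  have hEab : EE k (a * b) = E := by
    have := p4 g2
    omega
  -- the conclusion
  by_contra hcon
  push Not at hcon
  have hXA : 2 ^ (2 ^ E) ≤ b ^ A := by
    by_contra hlt
    push Not at hlt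
    obtain ⟨x, hx, hx'⟩ := hcon (SS (2 ^ (2 ^ E)) a) hPE
    obtain ⟨u1, u2, u3, u4, G, s, u5, u6⟩ := mem_SS.mp hx
    apply hx' u1 u2 u3 u4 G s _ u6
    exact lt_of_lt_of_le (Nat.pow_lt_pow_right u1 hlt) u5
  have hlogb : (0:ℝ) < Real.logb 2 b := Real.logb_pos (by norm_num) (by exact_mod_cast hb)
  have hy1 : (2:ℝ) ^ E ≤ A * Real.logb 2 b := by
    have h1 : ((2:ℝ) ^ (2 ^ E)) ≤ (b:ℝ) ^ A := by exact_mod_cast hXA
    have h2 := Real.logb_le_logb_of_le (b := 2) (by norm_num) (by positivity) h1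
    rw [Real.logb_pow, Real.logb_pow, Real.logb_self_eq_one (by norm_num), mul_one] at h2
    push_cast at h2
    exact h2
  have hy2 : Real.logb 2 b < 2 ^ (E + 1) := by
    have h1 : (b:ℝ) < (2:ℝ) ^ (2 ^ (E + 1)) := by exact_mod_cast hbE
    have h2 := Real.logb_lt_logb (b := 2) (by norm_num) (by positivity) h1
    rw [Real.logb_pow, Real.logb_self_eq_one (by norm_num), mul_one] at h2
    push_cast at h2
    exact h2
  have hpow : (0:ℝ) < 2 ^ E := by positivity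
  have hAr : (0:ℝ) < A := by exact_mod_cast hA
  have hz0 : 0 ≤ (A : ℝ) * Real.logb 2 a / 2 ^ E := by
    have : 0 ≤ Real.logb 2 a := Real.logb_nonneg (by norm_num) (by exact_mod_cast ha.le)
    positivity
  have hsum : (A : ℝ) * Real.logb 2 ((a * b : ℕ) : ℝ) / 2 ^ E =
      (A : ℝ) * Real.logb 2 a / 2 ^ E + (A : ℝ) * Real.logb 2 b / 2 ^ E := by
    push_cast
    rw [Real.logb_mul (by positivity) (by positivity)]
    ring
  have hψa : ψ a = ⌊(A : ℝ) * Real.logb 2 a / 2 ^ E⌋₊ := by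
    show ⌊(A : ℝ) * Real.logb 2 a / 2 ^ (EE k a)⌋₊ = _
    rw [← hE]
  have hψab : ψ (a * b) = ⌊(A : ℝ) * Real.logb 2 a / 2 ^ E + (A : ℝ) * Real.logb 2 b / 2 ^ E⌋₊ := by
    show ⌊(A : ℝ) * Real.logb 2 ((a * b : ℕ) : ℝ) / 2 ^ (EE k (a * b))⌋₊ = _
    rw [hEab, hsum]
  obtain ⟨z, hz⟩ : ∃ z, z = (A : ℝ) * Real.logb 2 a / 2 ^ E := ⟨_, rfl⟩
  obtain ⟨y, hy⟩ : ∃ y, y = (A : ℝ) * Real.logb 2 b / 2 ^ E := ⟨_, rfl⟩
  rw [← hz] at hψa hz0 hψab
  rw [← hy] at hψab
  have hy1' : 1 ≤ y := by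
    rw [hy, le_div_iff₀ hpow, one_mul]
    exact hy1
  have hy2' : y < 2 * A := by
    rw [hy, div_lt_iff₀ hpow]
    rw [pow_succ] at hy2
    nlinarith
  have hlow : ⌊z⌋₊ + 1 ≤ ⌊z + y⌋₊ := by
    apply Nat.le_floor
    push_cast
    have := Nat.floor_le hz0
    linarith
  have hup : ⌊z + y⌋₊ < ⌊z⌋₊ + 1 + 2 * A := by
    rw [Nat.floor_lt (by linarith)]
    push_cast
    have := Nat.lt_floor_add_one z
    linarith
  have hmod := p5 g2
  rw [hψa, hψab] at hmod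
  have hdiv : (2 * A + 1) ∣ ⌊z + y⌋₊ - ⌊z⌋₊ := (Nat.modEq_iff_dvd' (by omega)).mp hmod
  have := Nat.le_of_dvd (by omega) hdiv
  omega

end Pool.Agent.Hhelper34.Cop
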